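import Pool.Agent.H17.FlowE

set_option autoImplicit false

namespace Pool.Agent.Results.MP_54b048_an.NoSmall

open Pool.Agent.H17.FlowE

theorem result : ∃ (X : Type) (_ : TopologicalSpace X) (_ : CompactSpace X)
    (_ : TopologicalSpace.MetrizableSpace X) (φ : Flow ℝ X),
    (∀ x, ∃ t, φ t x ≠ x) ∧ ∃ w w' : X, w ≠ w' ∧
      ∀ (Y : Type) [MetricSpace Y] [CompactSpace Y] (ψ : Flow ℝ Y) (π : X → Y),
        Continuous π → Function.Surjective π → (∀ t x, π (φ t x) = ψ t (π x)) →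
        π w ≠ π w' → Dynamics.coverEntropy (ψ 1) Set.univ = ⊤ := by
  refine ⟨X, inferInstance, inferInstance, inferInstance, φ, fun x => ⟨1 / 2, fun h => ?_⟩,
    (cst 0 ⟨le_rfl, zero_le_one⟩, 0), (cst 1 ⟨zero_le_one, le_rfl⟩, 0), fun h => ?_, ?_⟩
  · have h2 : x.2 + ((1 / 2 : ℝ) : AddCircle (1 : ℝ)) = x.2 := congrArg Prod.snd h
    rw [add_eq_left, AddCircle.coe_eq_zero_iff] at h2
    obtain ⟨n, hn⟩ := h2
    have : ((2 * n : ℤ) : ℝ) = (1 : ℤ) := by
      simp only [zsmul_eq_mul, mul_one] at hn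
      push_cast; linarith
    have : 2 * n = 1 := by exact_mod_cast this
    omega
  · have := congrFun (congrArg (fun p : X => p.1.1) h) 0
    simp [cst] at this
  · intro Y _ _ ψ π hc _ he hne
    refine main (ψ 1) (fun f => π (f, 0)) (hc.comp (by fun_prop)) (fun f => ?_) hne
    rw [← he]
    congr 1
    refine Prod.ext rfl ?_
    show (0 : AddCircle (1 : ℝ)) = 0 + ((1 : ℝ) : AddCircle (1 : ℝ))
    rw [AddCircle.coe_period, add_zero]

end Pool.Agent.Results.MP_54b048_an.NoSmall
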